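import Pool.Agent.Helper89.OC.Asm
import Pool.Agent.Helper36.OC.M_GLA
import Pool.Agent.Helper1.OC.M_GLB
import Pool.Agent.Helper38.OC.M_GLC
import Pool.Agent.Helper32.OC.M_LKN
import Pool.Agent.Helper48.OC.M_LKD
import Pool.Agent.Helper10.OC.M_GA2
import Pool.Agent.Helper78.OC.M_ORB
import Pool.Agent.Helper95.OC.M_TS2
import Pool.Agent.Helper61.OC.M_E2
import Pool.Agent.Helper24.OC.M_E4
import Pool.Agent.Helper9.OC.M_E3
import Pool.Agent.Helper55.OC.M_IB
import Pool.Agent.Helper60.OC.M_RB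
import Pool.Agent.Helper3.OC.M_PRV
import Pool.Agent.Helper8.OC.M_MXX
import Pool.Agent.Helper33.OC.M_CMM
import Pool.Agent.Helper70.OC.M_GPZ
import Pool.Agent.Helper28.OC.M_GPP
import Pool.Agent.Helper7.OC.M_KSS
import Pool.Agent.Helper75.OC.M_N33
import Pool.Agent.Helper2.OC.M_KRO
import Pool.Agent.Helper53.OC.M_CEN
import Pool.Agent.Helper97.OC.M_FIN
import Pool.Agent.Helper39.OC.M_DIC
import Pool.Agent.Helper62.OC.M_TAN
import Pool.Agent.Helper6.OC.M_CIX
import Pool.Agent.Helper42.OC.M_CIS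

/-! # Project OC (MP_2b6189_al): the modules put together -/

set_option autoImplicit false

namespace Pool.Agent.Helper89.OC

open Matrix ComplexConjugate Pool.Agent.Helper94.YF Pool.Agent.Helper94.YG Pool.Agent.Helper89.OS

theorem hPer : Per :=
  perPrime Helper36.OC.hGLA Helper1.OC.hGLB Helper38.OC.hGLC Helper32.OC.hLKN Helper48.OC.hLKD Helper10.OC.hGA2 Helper78.OC.hORB Helper95.OC.hTS2 Helper61.OC.hE2 Helper24.OC.hE4 Helper9.OC.hE3 Helper55.OC.hIB Helper60.OC.hRB Helper3.OC.hPRV Helper8.OC.hMXX Helper33.OC.hCMM Helper70.OC.hGPZ Helper28.OC.hGPP Helper7.OC.hKSS Helper75.OC.hN33 Helper2.OC.hKRO Helper53.OC.hCEN Helper97.OC.hFIN Helper39.OC.hDIC Helper62.OC.hTAN Helper6.OC.hCIX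

/-- Local theorem: if `p` divides `n` exactly once and `p - 1 = 2 ^ e` or `3 * 2 ^ e` or
`p ^ 2` divides `L`, then there is an invertible object of twist one or a Tannakian subset. -/
theorem local_all (I : Type) [Fintype I] [DecidableEq I] (Z : CentreData I)
    (p m : ℕ) (hodd : Odd Z.n) (hp : p.Prime) (hn : Z.n = p * m) (hpm : ¬ p ∣ m)
    (h : (∃ e : ℕ, p = 2 ^ e + 1) ∨ (∃ e : ℕ, p = 3 * 2 ^ e + 1) ∨ p ^ 2 ∣ Z.L) : Goal3 Z :=
  local_thm hPer I Z p m hodd hp hn hpm h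

end Pool.Agent.Helper89.OC
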