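import Pool.Agent.Helper89.OC.St3

/-! # Project OC (MP_2b6189_al): assembly -/

set_option autoImplicit false

namespace Pool.Agent.Helper89.OC

open Matrix ComplexConjugate Pool.Agent.Helper94.YF Pool.Agent.Helper94.YG Pool.Agent.Helper89.OS

/-- the alternative for one prime -/
def Per : Prop := ∀ (I : Type) [Fintype I] [DecidableEq I] (Z : CentreData I) (p m : ℕ),
  Odd Z.n → p.Prime → Z.n = p * m → ¬ p ∣ m → Goal3 Z ∨ ∃ (b : ZMod Z.L) (N : ℕ),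
    Idp Z.L p 1 b ∧ Odd N ∧ 5 ≤ N ∧ N ∣ p - 1 ∧
    ∀ c : ZMod Z.L, c * c = c → c * b = 0 →
      ‖Z.rho (s2 c) Z.o Z.o - Z.rho (s2 (c + b)) Z.o Z.o‖ ≤ (1 / (N : ℝ)) * (1 - 1 / (p : ℝ))

theorem perPrime (hGLA : StGLA) (hGLB : StGLB) (hGLC' : StGLC) (hLKN : StLKN) (hLKD : StLKD)
    (hGA2 : StGA2) (hORB : StORB) (hTS2' : StTS2) (hE2 : StE2) (hE4' : StE4) (hE3' : StE3)
    (hIB' : StIB) (hRB' : StRB) (hPRV : StPRV) (hMXX : StMXX) (hCMM : StCMM) (hGPZ' : StGPZ)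
    (hGPP' : StGPP) (hKSS' : StKSS) (hN33' : StN33) (hKRO : StKRO) (hCEN' : StCEN)
    (hFIN' : StFIN) (hDIC : StDIC) (hTAN' : StTAN) (hCIX : StCIX) : Per := by
  intro I _ _ Z p m hodd hp hn hpm
  haveI : NeZero p := ⟨hp.ne_zero⟩
  obtain ⟨a, b, X, hI, h2, ho, hst, hd, hm, hkap, hth, ht, hs, hchi, hN, hz⟩ :=
    toPD' I Z p m hp hn hpm hodd
  by_cases ha : 2 ≤ a
  · left
    left
    obtain ⟨k, hk1, hk2, hk3⟩ := Helper29.OS.hTWB Helper16.OS.hTWA Helper34.OS.hBLK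
      Helper91.OS.hAMG hRAT' Helper81.OS.hCGR Helper76.OS.hISO Helper66.OS.hPID I p a X ha
    rw [ho] at hk1
    rw [hd] at hk2
    rw [hth] at hk3
    exact ⟨k, hk1, hk2, hk3⟩
  have h1 : a = 1 := by
    have := X.a_pos
    omega
  subst h1
  obtain ⟨Q, hQ⟩ := Helper66.OS.hPID hRAT' p hp
  have hM := Helper39.OS.hMZZ I p X
  have hB : Blk X Q := Helper34.OS.hBLK hRAT' Helper81.OS.hCGR Helper76.OS.hISO I p 1 X Q hQ
    hM.2.2.2.2.2.2
  have hL : Lk Z b X := ⟨hodd, by rw [hn, hm], hI, ho, hst, hd, hth, ht, hs, hchi, hN, fun i => by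
    rw [hm]; exact hz i⟩
  rcases hDIC I p X Q hB with ⟨k, hk, hkd⟩ | ⟨k, hk, hky⟩ | ⟨N, a, hG⟩
  · left
    left
    simp only [Ks, Finset.mem_filter, Finset.mem_univ, true_and] at hk
    have h3 := X.th_of k hk.1 hk.2.1
    rw [ho] at hk
    rw [hd] at hkd
    rw [hth] at h3
    exact ⟨k, hk.2.2, hkd, h3⟩
  · left
    right
    exact hTAN' hLKD hGLA hGLB hGLC' hTS2' hORB I Z p b X Q hL hB k hk hky
  · obtain ⟨hnf, hsst, hfull⟩ := hLKN I Z p b X hL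
    have hGA : GA X := hGA2 I p X hsst
    by_cases h3 : N = 3
    · left
      subst h3
      obtain ⟨v, w, c1, c2, c3, c4, c5, c6, c7, c8, c9, c10, c11⟩ :=
        hN33' hGPP' hKSS' hGPZ' hMXX hPRV hCMM hRB' hIB' hTS2' hORB hE3' hE4' hE2 I p X Q a hG hGA
          hnf
      exact hFIN' hCEN' hKRO hTS2' hORB hGLA hGLB hGLC' hLKN I Z p b X Q a v w hL hB hG.aK hG.aO
        c1 c2 c3 c4 c5 c6 c7 c8 c9 c10 c11
    · right
      have hNge := hG.N_ge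
      have h5 : 5 ≤ N := by
        obtain ⟨r, hr⟩ := hG.N_odd
        omega
      have hp1 : 1 ≤ p := hp.one_lt.le
      have hpN : ((p - 1 : ℕ) : ℤ) = N * gX X := by
        rw [Nat.cast_sub hp1]
        exact_mod_cast hG.pN
      refine ⟨b, N, hI, hG.N_odd, h5, ?_, ?_⟩
      · have : (N : ℤ) ∣ ((p - 1 : ℕ) : ℤ) := ⟨gX X, hpN⟩
        exact_mod_cast this
      · intro c hc hcb
        refine (hCIX I Z p b X hL c hc hcb).trans (le_of_eq ?_)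
        have hN0 : (N : ℝ) ≠ 0 := by
          have : 0 < N := by omega
          exact_mod_cast this.ne'
        have hp0 : (p : ℝ) ≠ 0 := by exact_mod_cast hp.ne_zero
        have h6 : (p : ℝ) - 1 = N * (gX X : ℝ) := by exact_mod_cast hG.pN
        field_simp
        linarith

/-- Local theorem: `p ∥ n`, `p - 1 = 2 ^ e` or `3 * 2 ^ e`, or `p ^ 2 ∣ L`. -/
theorem local_thm (hPer : Per) (I : Type) [Fintype I] [DecidableEq I] (Z : CentreData I)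
    (p m : ℕ) (hodd : Odd Z.n) (hp : p.Prime) (hn : Z.n = p * m) (hpm : ¬ p ∣ m)
    (h : (∃ e : ℕ, p = 2 ^ e + 1) ∨ (∃ e : ℕ, p = 3 * 2 ^ e + 1) ∨ p ^ 2 ∣ Z.L) : Goal3 Z := by
  rcases h with h | ⟨e, he⟩ | h
  · exact Or.inl (oddFermat I Z p m hp hn hpm hodd (Or.inl h))
  · rcases hPer I Z p m hodd hp hn hpm with h1 | ⟨b, N, -, hN, h5, hdvd, -⟩
    · exact h1
    · exfalso
      have h2 : p - 1 = 3 * 2 ^ e := by omega
      rw [h2] at hdvd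
      have h3 : Nat.Coprime N (2 ^ e) := by
        apply Nat.Coprime.pow_right
        exact Nat.coprime_two_right.2 hN
      have h4 : N ∣ 3 := h3.dvd_of_dvd_mul_right hdvd
      have := Nat.le_of_dvd (by norm_num) h4
      omega
  · exact Or.inl (oddFermat I Z p m hp hn hpm hodd (Or.inr h))

/-- Square-free theorem. -/
theorem sf_thm (hPer : Per) (hCIS : StCIS) (I : Type) [Fintype I] [DecidableEq I]
    (Z : CentreData I) (hodd : Odd Z.n) (hsf : Squarefree Z.n) :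
    Goal3 Z ∨ ∃ N : ℕ → ℕ, (∀ p ∈ Z.n.primeFactors, Odd (N p) ∧ 5 ≤ N p ∧ N p ∣ p - 1) ∧
      1 - 1 / (Z.n : ℝ) ≤ ∑ p ∈ Z.n.primeFactors, (1 / (N p : ℝ)) * (1 - 1 / (p : ℝ)) := by
  by_cases hG : Goal3 Z
  · exact Or.inl hG
  right
  have key : ∀ p : ℕ, ∃ (b : ZMod Z.L) (N : ℕ), p ∈ Z.n.primeFactors →
      Idp Z.L p 1 b ∧ Odd N ∧ 5 ≤ N ∧ N ∣ p - 1 ∧
      ∀ c : ZMod Z.L, c * c = c → c * b = 0 →
      ‖Z.rho (s2 c) Z.o Z.o - Z.rho (s2 (c + b)) Z.o Z.o‖ ≤ (1 / (N : ℝ)) * (1 - 1 / (p : ℝ)) := by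
    intro p
    by_cases hp : p ∈ Z.n.primeFactors
    · have hpp := Nat.prime_of_mem_primeFactors hp
      obtain ⟨m, hm⟩ := Nat.dvd_of_mem_primeFactors hp
      have hpm : ¬ p ∣ m := by
        rintro ⟨k, hk⟩
        have h1 : p * p ∣ Z.n := ⟨k, by rw [hm, hk]; ring⟩
        exact hpp.one_lt.ne' (Nat.isUnit_iff.1 (hsf p h1))
      rcases hPer I Z p m hodd hpp hm hpm with h | ⟨b, N, h1, h2, h3, h4, h5⟩
      · exact absurd h hG
      · exact ⟨b, N, fun _ => ⟨h1, h2, h3, h4, h5⟩⟩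
    · exact ⟨0, 0, fun h => absurd h hp⟩
  choose b N hbN using key
  refine ⟨N, fun p hp => ⟨(hbN p hp).2.1, (hbN p hp).2.2.1, (hbN p hp).2.2.2.1⟩, ?_⟩
  exact hCIS I Z b (fun p => (1 / (N p : ℝ)) * (1 - 1 / (p : ℝ))) (fun p hp => (hbN p hp).1)
    (fun p hp c hc hcb => (hbN p hp).2.2.2.2 c hc hcb)

end Pool.Agent.Helper89.OC
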