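import Pool.Agent.Helper89.OS.All

/-!
# Project OC (MP_2b6189_al): Tannakian subcategories for odd dimension.  Definitions

Everything of project OS (file `Pool/Agent/Helper89/OS/All.lean`) is proved and may be used: the centre gives `PD` (`toPD'`), and
`Helper66.OS.hPID, Helper34.OS.hBLK, Helper39.OS.hMZZ, Helper8.OS.hHEC, Helper47.OS.hSTL, Helper79.OS.hDRE, Helper45.OS.hTSU,
Helper82.OS.hMUK, Helper94.OT.cdx3, Helper88.YF.hDUA, Helper36.YF.hFUS, Helper94.YF.hRAT', Helper13.OS.hXE, Helper19.OS.hGRP,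
Helper33.OS.hENT, Helper90.OS.hAUT, Helper73.OS.hLDV` and so on.
-/

set_option autoImplicit false

namespace Pool.Agent.Helper89.OC

open Matrix ComplexConjugate Pool.Agent.Helper94.YF Pool.Agent.Helper94.YG Pool.Agent.Helper89.OS

/-- The S-matrix of the centre with the normalisation `Sf o i = d i`. -/
noncomputable def Sf {I : Type} [Fintype I] [DecidableEq I] (Z : CentreData I) (i k : I) : ℂ :=
  (Z.n : ℂ) * Z.rho Sm i k

/-- `D` is the set of simple objects of a fusion subcategory, different from the unit, on which all twists are `1` and the double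
braiding is trivial (`s_xy = d_x d_y`): a nontrivial Tannakian subcategory. -/
structure TanSet {I : Type} [Fintype I] [DecidableEq I] (Z : CentreData I) (D : I → Prop) :
    Prop where
  unit : D Z.o
  nontriv : ∃ x, D x ∧ x ≠ Z.o
  dual : ∀ x, D x → D (Z.st x)
  fus : ∀ x y z, D x → D y → Z.N x y z ≠ 0 → D z
  twist : ∀ x, D x → Z.th x = 1
  symm : ∀ x y, D x → D y → Sf Z x y = (Z.d x : ℂ) * Z.d y

/-- The conclusion: an invertible object of twist `1`, or a nontrivial Tannakian subcategory. -/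
def Goal3 {I : Type} [Fintype I] [DecidableEq I] (Z : CentreData I) : Prop :=
  Goal2 Z ∨ ∃ D : I → Prop, TanSet Z D

/-- Global facts, part A (characters of the fusion ring; `Cchi Z i k = rho Sm k i / rho Sm o i`). -/
structure GLA {I : Type} [Fintype I] [DecidableEq I] (Z : CentreData I) : Prop where
  chi_o : ∀ i, Cchi Z i Z.o = 1
  o_chi : ∀ k, Cchi Z Z.o k = Z.d k
  chi_mul : ∀ i k l, Cchi Z i k * Cchi Z i l = ∑ v, (Z.N k l v : ℂ) * Cchi Z i v
  chi_int : ∀ i k, IsIntegral ℤ (Cchi Z i k)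
  Sf_chi : ∀ i k, Sf Z i k = (Z.d i : ℂ) * Cchi Z i k
  Sf_symm : ∀ i k, Sf Z i k = Sf Z k i
  Sf_o : ∀ i, Sf Z i Z.o = Z.d i
  bound : ∀ (σ : ℂ ≃+* ℂ) (i k : I), ‖σ (Cchi Z i k)‖ ≤ Z.d k
  chi_st : ∀ i k, Cchi Z i (Z.st k) = conj (Cchi Z i k)
  clos : ∀ i k l v, Cchi Z i k = Z.d k → Cchi Z i l = Z.d l → Z.N k l v ≠ 0 →
    Cchi Z i v = Z.d v

/-- Global facts, part B (the fusion rules). -/
structure GLB {I : Type} [Fintype I] [DecidableEq I] (Z : CentreData I) : Prop where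
  N_o : ∀ i j, Z.N i (Z.st j) Z.o = if i = j then 1 else 0
  dim : ∀ i j, Z.d i * Z.d j = ∑ l, Z.N i j l * Z.d l
  assoc : ∀ v w v' w', ∑ l, Z.N v w l * Z.N v' w' l =
    ∑ l, Z.N v (Z.st v') l * Z.N w' (Z.st w) l

/-- Global facts, part C (the twists). -/
structure GLC {I : Type} [Fintype I] [DecidableEq I] (Z : CentreData I) : Prop where
  twist : ∀ i k, Sf Z i k * (Z.th i * Z.th k) =
    ∑ l, (Z.N i (Z.st k) l : ℂ) * (Z.th l * Z.d l)
  self : Odd Z.n → ∀ i, Sf Z i i = (Z.d i : ℂ) ^ 2 → Z.th i = 1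
  bal : ∀ i k l, Sf Z i k = (Z.d i : ℂ) * Z.d k → Z.N i k l ≠ 0 → Z.th l = Z.th i * Z.th k

/-- The link between the centre and the `p`-local data `X` (this is what `toPD'` gives). -/
structure Lk {I : Type} [Fintype I] [DecidableEq I] (Z : CentreData I) {p : ℕ} (b : ZMod Z.L)
    (X : PD I p 1) : Prop where
  odd : Odd Z.n
  n_eq : Z.n = p * X.m
  idp : Idp Z.L p 1 b
  o : X.o = Z.o
  st : X.st = Z.st
  d : X.d = Z.d
  th : X.th = Z.th
  t : X.t = Z.tw b
  s : X.s = fun i k => (p : ℂ) * Z.rho (s2 b) i k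
  chi : X.chi = Cchi Z
  N : X.N = Z.N
  z : ∀ i, (X.z i : ℂ) = (X.m : ℂ) * Z.rho (s2 (1 - b)) i Z.o

/-- Consequences of the link (module LKA). -/
structure LA {I : Type} [Fintype I] [DecidableEq I] (Z : CentreData I) {p : ℕ} (X : PD I p 1) :
    Prop where
  nform : ∀ i k, X.s i k * (X.t i * X.t k) =
    ∑ l, (X.N i (X.st k) l : ℂ) * (X.t l * X.y l)
  s_st : ∀ i k, X.s (X.st i) (X.st k) = X.s i k
  full : ∃ zz : I → I → ℂ, (∀ i k, IsIntegral ℤ (zz i k)) ∧ (∀ i, zz i X.o = X.z i) ∧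
    (∀ k, zz X.o k = X.z k) ∧ ∀ i k, Sf Z i k = ∑ j, zz i j * X.s j k
  dd : ∀ i, i ≠ X.o → (∑ j, if X.t j = 1 then 0 else (X.d j : ℂ) ^ 2 * X.chi j i) =
    -((X.m : ℂ) ^ 2 * X.y i * (if X.t i = 1 then (p : ℂ) - 1 else -1))

/-- Facts about the orbits of the torus (module ORB). -/
structure OB {I : Type} [Fintype I] [DecidableEq I] {p : ℕ} [NeZero p] (X : PD I p 1) :
    Prop where
  bij : ∀ c, Function.Bijective (X.pi c)
  self : ∀ k, k ∈ Orb X k
  eq : ∀ k j, j ∈ Orb X k → Orb X j = Orb X k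
  y : ∀ k j, j ∈ Orb X k → X.y j = X.y k
  d : ∀ k j, j ∈ Orb X k → X.d j = X.d k
  t : ∀ k j, j ∈ Orb X k → X.t k = 1 → X.t j = 1
  o : ∀ k, X.o ∈ Orb X k → k = X.o
  card : ∀ k, (Orb X k).card * (Finset.univ.filter fun c => X.pi c k = k).card = p - 1
  fib : ∀ k j, j ∈ Orb X k → (Finset.univ.filter fun c => X.pi c k = j).card =
    (Finset.univ.filter fun c => X.pi c k = k).card
  sum : ∀ (k : I) (F : I → ℂ), ((Orb X k).card : ℂ) * ∑ c, F (X.pi c k) =
    ((p : ℂ) - 1) * ∑ i ∈ Orb X k, F i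

/-- Galois action on the matrix `s` (module GA2); duality commutes with the torus. -/
structure GA {I : Type} [Fintype I] [DecidableEq I] {p : ℕ} (X : PD I p 1) : Prop where
  gal2 : ∀ (σ : ℂ ≃+* ℂ) (w : (ZMod (p ^ 1))ˣ),
    (∀ ζ : ℂ, ζ ^ p = 1 → σ ζ = ζ ^ (w : ZMod (p ^ 1)).val) →
    ∀ i j, σ (X.s i j) = X.s i (X.pi w j)
  exs : ∀ w : (ZMod (p ^ 1))ˣ, ∃ σ : ℂ ≃+* ℂ, ∀ ζ : ℂ, ζ ^ p = 1 →
    σ ζ = ζ ^ (w : ZMod (p ^ 1)).val
  pi_st : ∀ c i, X.pi c (X.st i) = X.st (X.pi c i)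

open Classical in
/-- the nontrivial part of the principal block with `t = 1` -/
noncomputable def Ks {I : Type} [Fintype I] [DecidableEq I] {p : ℕ} (X : PD I p 1) : Finset I :=
  Finset.univ.filter fun k => X.y k ≠ 0 ∧ X.t k = 1 ∧ k ≠ X.o

open Classical in
/-- `Ks` without the orbit of `a` -/
noncomputable def Kp {I : Type} [Fintype I] [DecidableEq I] {p : ℕ} (X : PD I p 1) (a : I) :
    Finset I := (Ks X).filter fun k => k ∉ Orb X a

/-- `g = p - y o` -/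
def gX {I : Type} [Fintype I] [DecidableEq I] {p : ℕ} (X : PD I p 1) : ℤ := (p : ℤ) - X.y X.o

/-- The main case: `a` is an exceptional object, `N = (p - 1) / g ≥ 3` odd. -/
structure Gam {I : Type} [Fintype I] [DecidableEq I] {p : ℕ} (X : PD I p 1) (Q : ℂ → Prop)
    (N : ℕ) (a : I) : Prop where
  blk : Blk X Q
  N_odd : Odd N
  N_ge : 3 ≤ N
  pN : (p : ℤ) - 1 = N * gX X
  aK : a ∈ Ks X
  ay : X.y a ^ 2 = 1
  aO : ((Orb X a).card : ℤ) = gX X
  sq : ∑ k ∈ Kp X a, X.y k ^ 2 = gX X * (p - gX X)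
  dm : ∑ k ∈ Kp X a, X.y k * (X.d k : ℤ) = gX X

end Pool.Agent.Helper89.OC
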