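import Pool.Agent.Helper89.OC.Defs

/-!
# Project OC (MP_2b6189_al), part 1: global facts and the link

Every module proves `theorem hXXX : ... → StXXX`; other statements of `Pool/Agent/Helper89/OC/St1, St2, St3` may be added as
hypotheses.  All modules of projects OS and YF are proved and can be cited (imported through `Pool.Agent.Helper89.OS.All`): for example
`Helper88.YF.hDUA : StDUA`, `Helper36.YF.hFUS : StFUS`, `Helper94.YF.hRAT' : StRAT`, `Helper19.OS.hGRP : StGRP`,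
`Helper33.OS.hENT : StENT`, `Helper13.OS.hXE : StXE` (lemmas `xe_so_ne`, `xe_nu_mul`, `xe_nu_int`, `xe_uni'` in `Pool/Agent/Helper13/OS/M_XE.lean`).
-/

set_option autoImplicit false

namespace Pool.Agent.Helper89.OC

open Matrix ComplexConjugate Pool.Agent.Helper94.YF Pool.Agent.Helper94.YG Pool.Agent.Helper89.OS

/-- **OC MODULE GLA.**  Characters of the fusion ring.
PROOF.  `S = rho Sm`, `S o i = d i / n ≠ 0`, symmetric.  `chi_o`, `o_chi` (`S o o = 1 / n`, `S k o = d k / n`), `chi_mul`: `verlinde k l i` divided by `(S o i)^2`; `chi_int`: these are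
proved in `Pool/Agent/Helper13/OS/M_XE.lean` (`xe_nu_mul`, `xe_nu_int`).  `Sf_chi`: `n S i k = n S k i = n (S o i) Cchi i k = d i Cchi i k`.  `chi_st`: `s_dual`: `S (st k) i = conj (S k i)`, `S o i` real.
`bound`: let `f k = σ (Cchi i k)`; `f o = 1`, `f k * f l = ∑ v, N k l v * f v` (`σ` fixes naturals).  Let `l` maximise `‖f l‖ / d l`, the maximum `M ≥ ‖f o‖ / 1 = 1 > 0`.  Then
`‖f k‖ * M * d l = ‖f k * f l‖ ≤ ∑ v, N k l v * M * d v = M * d k * d l` (the last equality is `chi_mul` for `i = o` with `o_chi`), so `‖f k‖ ≤ d k`.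
`clos`: `d k * d l = Cchi i k * Cchi i l = ∑ v, N k l v * Cchi i v` and `= ∑ v, N k l v * d v`; so `∑ v, N k l v * (d v - re (Cchi i v)) = 0`, all terms are `≥ 0` (`bound` for `σ = 1`), so
`re (Cchi i v) = d v` if `N k l v ≠ 0`, and `‖Cchi i v‖ ≤ d v` gives `Cchi i v = d v`. -/
def StGLA : Prop := ∀ (I : Type) [Fintype I] [DecidableEq I] (Z : CentreData I), GLA Z

/-- **OC MODULE GLB.**  The fusion rules.
PROOF.  `N_o`: FUS (3) `rho (Lo z) i j = ∑ l, N i (st j) l * rho (Lo z) l o` for `z = 0`: `Lo 0 = 1`, so `[i = j] = ∑ l, N i (st j) l * [l = o] = N i (st j) o`.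
`dim`: GLA `chi_mul` for `i = o` (`Cchi o k = d k`), as naturals.
`assoc`: `S = rho Sm`, `verlinde v w x`: `S v x * S w x = S o x * ∑ l, N v w l * S l x`.  `S o x ≠ 0` is real, `S` is unitary (`∑ x, S l x * conj (S l' x) = [l = l']`), `conj (S v x) = S (st v) x`.
`∑ x, (S v x * S w x / S o x) * conj (S v' x * S w' x / S o x) = ∑ l l', N v w l * N v' w' l' * [l = l']` is the left side.  The same sum is
`∑ x, (S v x * S (st v') x / S o x) * conj (S w' x * S (st w) x / S o x)` (`conj (S (st w) x) = S w x`), which is the right side. -/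
def StGLB : Prop := ∀ (I : Type) [Fintype I] [DecidableEq I] (Z : CentreData I), GLB Z

/-- **OC MODULE GLC.**  The twists.
PROOF.  `twist`: `s2 1 = U (-1) * Lo 1 * U (-1)` has the matrix `(0, -1; 1, 0)`, so `s2 1 = Sm` and `S i k = tw (-1) i * rho (Lo 1) i k * tw (-1) k`, `tw (-1) i * th i = tw 0 i = 1` (FUS).  FUS (3):
`rho (Lo 1) i k = ∑ l, N i (st k) l * rho (Lo 1) l o`, and `rho (Lo 1) l o = tw 1 l * S l o = th l * d l / n` (`tw _ o = 1`).
`bal`: apply `twist` to `i, st k`: `Sf i (st k) = conj (Sf i k) = d i * d k` (GLA `Sf_chi`, `chi_st`), `th (st k) = th k` (DUA), `st (st k) = k`: `d i * d k * (th i * th k) = ∑ l, N i k l * (th l * d l)`; and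
`d i * d k = ∑ l, N i k l * d l` (GLB `dim`), `|th l| = 1` (`th l ^ L = 1`, FUS; `L_pos`): so `∑ l, N i k l * d l * (1 - re (th l / (th i * th k))) = 0` with terms `≥ 0`, hence `th l = th i * th k` if `N i k l ≠ 0`.
`self`: `Sf i i = d i ^ 2 = ∑ l, N i (st i) l * d l` (GLB; `d (st i) = d i`) and `Sf i i * th i ^ 2 = ∑ l, N i (st i) l * th l * d l`; so as before `th l = th i ^ 2` whenever `N i (st i) l ≠ 0`; `l = o` (GLB `N_o`):
`th i ^ 2 = 1`.  `L` is odd: `Helper73.OS.hLDV` (`2 ∣ L` gives `2 ∣ n`), and `th i ^ L = 1`, so `th i = 1`. -/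
def StGLC : Prop := StGLA → StGLB → ∀ (I : Type) [Fintype I] [DecidableEq I] (Z : CentreData I), GLC Z

/-- **OC MODULE LKN.**  Consequences of the link (fields of `LA` except `dd`).
PROOF.  `nform`: FUS (3) for `z = b`: `rho (Lo b) i k = ∑ l, N i (st k) l * rho (Lo b) l o`, `s2 b = U (-b) * Lo b * U (-b)`, `rho (U z) = diagonal (tw z)`, so `s i k = p * tw (-b) i * rho (Lo b) i k * tw (-b) k`,
`tw b i * tw (-b) i = 1`, `tw z o = 1`: `s i k * (t i * t k) = p * rho (Lo b) i k`, and `t l * y l = t l * s l o = p * rho (Lo b) l o`.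
`s_st`: DUA (last part).  `full`: `zz i j = m * rho (s2 (1-b)) i j`: integral by ENT with `q = m`, `Y = z`; `zz i o = z i`; `zz o k = z k` by symmetry (ENT); `Sm = s2 (1-b) * s2 b` (GRP), so
`n * rho Sm i k = (p * m) * ∑ j, rho (s2 (1-b)) i j * rho (s2 b) j k`. -/
def StLKN : Prop := ∀ (I : Type) [Fintype I] [DecidableEq I] (Z : CentreData I) (p : ℕ)
  (b : ZMod Z.L) (X : PD I p 1), Lk Z b X →
  (∀ i k, X.s i k * (X.t i * X.t k) = ∑ l, (X.N i (X.st k) l : ℂ) * (X.t l * X.y l)) ∧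
  (∀ i k, X.s (X.st i) (X.st k) = X.s i k) ∧
  (∃ zz : I → I → ℂ, (∀ i k, IsIntegral ℤ (zz i k)) ∧ (∀ i, zz i X.o = X.z i) ∧
    (∀ k, zz X.o k = X.z k) ∧ ∀ i k, Sf Z i k = ∑ j, zz i j * X.s j k)

/-- **OC MODULE LKD.**  The field `dd` of `LA`.
PROOF.  Write `S = rho Sm`.  For a unit `w` of `ZMod (p^1)` let `wb : ZMod L` be `w.val * b`.  `S * U x * S⁻¹ = Lo (-x)` (2x2 matrices), `rho S⁻¹ = (rho S)ᴴ`, so
`∑ j, S o j * tw (wb) j * conj (S i j) = rho (Lo (-wb)) o i = rho (Lo (-wb)) i o` (FUS: symmetric).  `S o j = d j / n`.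
Claim: `rho (Lo (-wb)) i o = tw (-(w⁻¹ b)) i * rho (s2 b) i o`.  By FUS (6) (`g' ` has the first column `c *` the first column of `g` implies `rho g' i o = rho g i o`) with `g = U (-(w⁻¹ b)) * s2 b`, whose first column
is `(1 - b - w⁻¹ b, b)` (`b * b = b`), and the unit `c = (1 - b) - w b` (inverse `(1 - b) - w⁻¹ b`; here `w b`, `w⁻¹ b` multiply like `w`, as `p * b = 0`; module JTU `Helper24.OS.hJTU` gives the maps `j`, `tu` with
`j x = x.val * b`, `j (x y) = j x * j y`, `j 1 = b`): `c * (1 - b - w⁻¹ b) = 1 - b + b = 1` and `c * b = - w b`.  So it is `t i ^ (-w⁻¹).val * y i / p` (as in the docstring of OS MODULE XC (12)).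
So for a unit `w`: `∑ j, t j ^ w.val * d j * conj (Sf i j) = n ^ 2 / p * t i ^ (-w⁻¹).val * y i`, and for `w = 0` it is `n ^ 2 * [i = o]` (unitarity of `S`).  Let `i ≠ o`.  Sum over all `w : ZMod (p^1)`:
`p * ∑_{t j = 1} d j * conj (Sf i j) = n ^ 2 / p * y i * (∑_{w ≠ 0} t i ^ (-w⁻¹).val)` `= n ^ 2 / p * y i * (p - 1 if t i = 1, else -1)`.  As `∑_j d j * conj (Sf i j) = 0`:
`∑_{t j ≠ 1} d j * conj (Sf i j) = - m ^ 2 * y i * (..)`, a real number; `Sf i j = Sf j i = d j * Cchi j i` (GLA), take conjugates. -/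
def StLKD : Prop := StGLA → ∀ (I : Type) [Fintype I] [DecidableEq I] (Z : CentreData I) (p : ℕ)
  (b : ZMod Z.L) (X : PD I p 1), Lk Z b X →
  ∀ i, i ≠ X.o → (∑ j, if X.t j = 1 then 0 else (X.d j : ℂ) ^ 2 * X.chi j i) =
    -((X.m : ℂ) ^ 2 * X.y i * (if X.t i = 1 then (p : ℂ) - 1 else -1))

/-- **OC MODULE GA2.**  Galois action.
PROOF.  `exs`: the lemma `cyc_aut` (private) in `Pool/Agent/Helper90/OS/M_AUT.lean` (copy it with the lemmas it uses) for `L = p ^ 1`: an automorphism with `σ (exp (2 π i / p)) = exp (2 π i / p) ^ w.val`; every `ζ` with `ζ ^ p = 1`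
is a power of `exp (2 π i / p)`.
`gal2`: `gal` gives `c` with `σ (s i j) = s i (pi c j)`.  Apply `σ` to `weil` for the unit `1`: `∑ k, t k * (s i k * s k j) = p * (t i ^ (-1).val * t j ^ (-1).val) * s i j` (`pi 1 j = j`).  Left side:
`∑ k, t k ^ w.val * (s i (pi c k) * s k (pi c j)) = ∑ k, t k ^ w.val * (s (pi c i) k * s k (pi c j))` (`pi_s`, symmetric) `= p * (t (pi c i) ^ (-w⁻¹).val * t (pi c j) ^ (-w⁻¹).val) * s (pi c i) (pi w⁻¹ (pi c j))`, and
`t (pi c i) = t i ^ (c^2).val`.  Write `T x i = t i ^ x.val` for `x : ZMod (p^1)`, additive in `x` (`t i ^ (p^1) = 1`).  So: `T (-c^2 w⁻¹) i * T (-c^2 w⁻¹) j * s i (pi (c * w⁻¹ * c) j) = T (-w) i * T (-w) j * s i (pi c j)` for all `i, j`.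
Take `j = o` and `i = k` of the field `ex` (`y k ≠ 0`, `t k ≠ 1`, so `t k` has order `p`): `c^2 w⁻¹ = w`, `c^2 = w^2`, so (field `ZMod (p^1)`, `p` prime) `c = w` or `c = -w`; in both cases `c * w⁻¹ * c = w` and
`s i (pi w j) = s i (pi c j)`.
`pi_st`: apply `gal2` (with `σ` of `exs` for `c`) to `s (st i) (st j) = s i j`: `s (st i) (pi c (st j)) = σ (s (st i) (st j)) = σ (s i j) = s i (pi c j) = s (st i) (st (pi c j))` for all `i`; `st` is surjective and `s` is invertible (`s_uni`),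
so its columns `pi c (st j)` and `st (pi c j)` being equal gives `pi c (st j) = st (pi c j)`. -/
def StGA2 : Prop := ∀ (I : Type) [Fintype I] [DecidableEq I] (p : ℕ) [NeZero p] (X : PD I p 1),
  (∀ i k, X.s (X.st i) (X.st k) = X.s i k) → GA X

/-- **OC MODULE ORB.**  Orbits of the torus.
PROOF.  `Orb X k = {j | ∃ c, pi c k = j}`, `pi_mul`, `pi_one`: an action of the group of units of `ZMod (p^1)`, which has `p - 1` elements.  `bij`: the inverse is `pi c⁻¹`.  `t`: `pi_t`.  `o`: `pi_o`.  `card`, `fib`, `sum`: orbit-stabiliser; see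
`mem_Orb`, `fiber_card`, `sum_orb` in `Pool/Agent/Helper82/OS/M_MUK.lean` and `par2` in `Pool/Agent/Helper94/OT/Par.lean`. -/
def StORB : Prop := ∀ (I : Type) [Fintype I] [DecidableEq I] (p : ℕ) [NeZero p] (X : PD I p 1), OB X

/-- **OC MODULE TS2.**  The invariant vectors of the orbits and their characters.
PROOF.  `k ∈ Ks X`.  Let `f i = #{c | pi c k = i}`; by `TSU` (`Helper45.OS.hTSU`, needs `[NeZero p]`; first claim): for `y j ≠ 0`, `t j = 1`, `j ≠ o`: `g * (p * f j - ∑_c s j (pi c k)) = (p - 1) * y k * y j`.  By `sum` of ORB: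
`|Orb k| * ∑_c s j (pi c k) = (p - 1) * ∑_{i ∈ Orb k} s j i`, and `|Orb k| * f j = (p - 1) * [j ∈ Orb k]` (`card`, `fib`).  So (divide by `p - 1`): for `j ∈ Ks`: `g * (p * [j ∈ Orb k] - ∑_{i ∈ Orb k} s j i) = |Orb k| * y k * y j`.
For `j = o`: `∑_{i ∈ Orb k} s o i = |Orb k| * y k`.  For `y j = 0`: `s j i = 0` for `i ∈ Orb k` (`Blk.sup`, symmetric).  For `y j ≠ 0`, `t j ≠ 1`: `Helper47.OS.hSTL` (2) with `f` as above, `F j = ∑_c s j (pi c k)` (an integer for
`t j = 1`; see the docstring and the proof of TSU): `g * ∑_c s j (pi c k) = (0 - (p - 1) * y k) * y j`, so `g * ∑_{i ∈ Orb k} s j i = - |Orb k| * y k * y j`.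
With `E l = g * [l ∈ Orb k] + |Orb k| * y k * [l = o]` these are exactly `∑ l, s j l * E l = p * E j` in all cases (`g + y o = p`).
(2) field `tor` for `E` (`t = 1` on `Orb k` and at `o`): for `t j ≠ 1`: `∑ l, E l * chi j l = 0`, `chi j o = 1`. -/
def StTS2 : Prop := StORB → ∀ (I : Type) [Fintype I] [DecidableEq I] (p : ℕ) [NeZero p]
  (X : PD I p 1) (Q : ℂ → Prop), Blk X Q → ∀ k ∈ Ks X,
  (∀ j, ∑ l, X.s j l * ((gX X : ℂ) * (if l ∈ Orb X k then 1 else 0) +
      ((Orb X k).card : ℂ) * X.y k * (if l = X.o then 1 else 0)) =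
    (p : ℂ) * ((gX X : ℂ) * (if j ∈ Orb X k then 1 else 0) +
      ((Orb X k).card : ℂ) * X.y k * (if j = X.o then 1 else 0))) ∧
  (∀ j, X.t j ≠ 1 → (gX X : ℂ) * ∑ i ∈ Orb X k, X.chi j i = -(((Orb X k).card : ℂ) * X.y k))

end Pool.Agent.Helper89.OC
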