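import Pool.Agent.Helper89.OC.St1

/-!
# Project OC (MP_2b6189_al), part 2: the structure of the principal block

See the header of `St1`.  `X : PD I p 1`, `x = y o`, `g = p - x = gX X`, `B1 = {y ≠ 0, t = 1} = Ks X ∪ {o}`.  Proved facts of project OS, used below:
`Helper39.OS.hMZZ` (sums of `y ^ 2`: over all `i` it is `p ^ 2`, over `t = 1` it is `p + (p-1) x`, over `t = ζ ≠ 1`, `ζ ^ p = 1`, it is `g`; `g ≥ 2`),
`Helper8.OS.hHEC`, `part_a` of `Pool/Agent/Helper82/OS/M_MUK.lean`: `∑_{t j = 1} |s k j|^2 = p + ∑_c s k (pi c k)` if `t k = 1`.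
-/

set_option autoImplicit false

namespace Pool.Agent.Helper89.OC

open Matrix ComplexConjugate Pool.Agent.Helper94.YF Pool.Agent.Helper94.YG Pool.Agent.Helper89.OS

open Classical in
/-- **OC MODULE E2.**
PROOF.  `[t j = ζ] = (1/p) * ∑_{w : ZMod (p^1)} ζ^(-w) t j ^ w.val` (both are `p`-th roots of unity; `ζ^(-w)` means `(ζ⁻¹) ^ w.val`).  `|F j|^2 = conj (F j) * F j = ∑ i k, conj (u i) * u k * conj (s j i) * s j k`,
`conj (s j i) = s j (pi (-1) i) = s (pi (-1) i) j` (`conj_s`, symmetric).  `w = 0`: `∑ j, s (pi (-1) i) j * s j k = p ^ 2 * [i = k]` (`weil0`, `pi (-1)` injective).  `w` a unit: `weil`: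
`∑ j, t j ^ w.val * (s (pi (-1) i) j * s j k) = p * s (pi (-1) i) (pi w⁻¹ k) = p * s i (pi (-w⁻¹) k)` if `t i = t k = 1` (then `t (pi (-1) i) = 1`, `pi_t`; `pi_s`, `pi_mul`).  Put `c = - w⁻¹`: `ζ^(-w) = ζ ^ c⁻¹`.  Divide by `p`. -/
def StE2 : Prop := ∀ (I : Type) [Fintype I] [DecidableEq I] (p : ℕ) [NeZero p] (X : PD I p 1)
  (u : I → ℂ), (∀ i, u i ≠ 0 → X.t i = 1) → ∀ ζ : ℂ, ζ ^ p = 1 →
  ((∑ j, (if X.t j = ζ then ‖∑ k, X.s j k * u k‖ ^ 2 else 0) : ℝ) : ℂ) =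
    (p : ℂ) * ((∑ k, ‖u k‖ ^ 2 : ℝ) : ℂ) + ∑ c : (ZMod (p ^ 1))ˣ,
      ζ ^ (((c⁻¹ : (ZMod (p ^ 1))ˣ) : ZMod (p ^ 1))).val *
        ∑ i, ∑ k, conj (u i) * (X.s i (X.pi c k) * u k)

open Classical in
/-- **OC MODULE E4.**
PROOF.  E2 for `ζ = 1`: `∑_c ∑ i k, conj (u i) * s i (pi c k) * u k = ∑ i k, conj (u i) * s i k * ∑_c u (pi c⁻¹ k)` (reindex `k` by the bijection `pi c`) `= 0`. -/
def StE4 : Prop := StE2 → StORB → ∀ (I : Type) [Fintype I] [DecidableEq I] (p : ℕ) [NeZero p]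
  (X : PD I p 1) (u : I → ℂ), (∀ i, u i ≠ 0 → X.t i = 1) → (∀ k, ∑ c, u (X.pi c k) = 0) →
  (∑ j, if X.t j = 1 then ‖∑ k, X.s j k * u k‖ ^ 2 else 0) = (p : ℝ) * ∑ k, ‖u k‖ ^ 2

open Classical in
/-- **OC MODULE E3.**
PROOF.  For `c` a unit let `(T c u) k = u (pi c⁻¹ k)`, `B(x, y) = ∑ i k, conj (x i) * s i k * y k`.  `∑ k, s i (pi c k) * u k = ∑ k, s i k * (T c u) k`, so by E2 the left side is `p |u|^2 + B(u, Θ u)`, `Θ = ∑_c ζ ^ c⁻¹ T c`.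
`B(T c x, y) = B(x, T c y)` (`pi_s`).  `u = u0 + u'`, `u0 = (1/(p-1)) ∑_c T c u` (invariant), `∑_c T c u' = 0`; `|u|^2 = |u0|^2 + |u'|^2`.  `Θ u0 = (∑_{c} ζ^c⁻¹) u0 = - u0`.
`B(u0, Θ u') = (1/(p-1)) ∑_e B(T e u0, Θ u') = (1/(p-1)) B(u0, Θ ∑_e T e u') = 0`, `B(u', Θ u0) = - B(u', u0) = 0` in the same way.  So `B(u, Θ u) = - B(u0, u0) + B(u', Θ u')`.
`|B(u0, u0)| ≤ |u0| * |s u0| = p |u0|^2` (Cauchy-Schwarz; `|s v|^2 = p^2 |v|^2` from `s_uni`).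
`|Θ u'|^2 = ∑_{c c'} ζ^(c⁻¹ - c'⁻¹) <T c' u', T c u'> = ∑_e (∑_c ζ^((1 - e) c⁻¹)) <u', T e u'>` (`e = c c'⁻¹`) `= p |u'|^2 - ∑_e <u', T e u'> = p |u'|^2` (the inner sum is `p - 1` for `e = 1`, else `-1`).
`v = Θ u'` is supported on `t = 1` (`pi_t`) and `∑_c v (pi c k) = 0`, so by E4 `∑_{t j = 1} |(s v) j|^2 = p |v|^2 = p^2 |u'|^2`, and `|B(u', v)| ≤ |u'| * (∑_{t i = 1} |(s v) i|^2)^(1/2) = p |u'|^2` (only `i` with `u' i ≠ 0` count).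
Total `≤ p |u|^2 + p |u0|^2 + p |u'|^2 = 2 p |u|^2`. -/
def StE3 : Prop := StE2 → StE4 → StORB → ∀ (I : Type) [Fintype I] [DecidableEq I] (p : ℕ)
  [NeZero p] (X : PD I p 1) (u : I → ℂ), (∀ i, u i ≠ 0 → X.t i = 1) → ∀ ζ : ℂ, ζ ^ p = 1 →
  ζ ≠ 1 → (∑ j, if X.t j = ζ then ‖∑ k, X.s j k * u k‖ ^ 2 else 0) ≤
    2 * (p : ℝ) * ∑ k, ‖u k‖ ^ 2

open Classical in
/-- **OC MODULE IB.**
PROOF.  `ζ = t b ≠ 1`, `ζ ^ p = 1`.  `u k = conj (s b k)` if `t k = 1`, else `0`; `A = ∑_{t k = 1} |s b k|^2 = |u|^2`; `(s u) b = A`.  `w k = p [k = o] - [t k = 1] y k`.  `α = y b / g` (real).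
(i) for `t j ≠ 1`: `(s w) j = (p + 1) y j`: `Helper8.OS.hHEC` for `f = e_o`: `∑_{t k = 1} s j k * y k = - y j` (`∑ i, s k i * [i = o] = y k`).  (ii) `∑ w k ^ 2 = p^2 - 2 p x + (p + (p-1) x) = (p+1) g` (MZZ).  (iii) for `t k = 1`: `∑_{t j = ζ} y j * s j k = w k`:
`weil` for `i = o`, unit `v`: `∑ j, t j ^ v.val * (s o j * s j k) = p * s o (pi v⁻¹ k) = p * y k`, `weil0`: `∑ j, s o j * s j k = p^2 [k = o]`; so `p` times the left side is `p^2 [k = o] + p y k ∑_{v ≠ 0} ζ^(-v) = p^2 [k = o] - p y k`.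
Let `u' = u - α w` (supported on `t = 1`).  `<w, u> = ∑ w k * u k = conj ((s w) b) = (p+1) y b`.  `|u'|^2 = A - 2 α (p+1) y b + α^2 (p+1) g = A - (p+1) (y b)^2 / g`.  `(s u') b = A - α (p+1) y b = |u'|^2`.
`∑_{t j = ζ} y j * (s u') j = ∑ k, u' k * w k` (iii) `= <w, u> - α (p+1) g = 0`.  Let `v' = e_b - α y` on `{t j = ζ}`: `∑_{t j = ζ} |v' j|^2 = 1 - 2 α y b + α^2 g = 1 - (y b)^2 / g` (MZZ: `∑_{t = ζ} y^2 = g`), and
`∑_{t j = ζ} v' j * (s u') j = |u'|^2 - 0`.  Cauchy-Schwarz and E3: `|u'|^4 ≤ (1 - (y b)^2/g) * 2 p |u'|^2`, so `|u'|^2 ≤ 2 p (1 - (y b)^2 / g)` and `A ≤ (p+1) (y b)^2 / g + 2 p - 2 p (y b)^2 / g`. -/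
def StIB : Prop := StE3 → StE2 → StE4 → StORB → ∀ (I : Type) [Fintype I] [DecidableEq I] (p : ℕ)
  [NeZero p] (X : PD I p 1) (b : I), X.t b ≠ 1 →
  (∑ k, if X.t k = 1 then ‖X.s b k‖ ^ 2 else 0) ≤
    2 * (p : ℝ) - ((p : ℝ) - 1) * (X.y b : ℝ) ^ 2 / (gX X : ℝ)

open Classical in
/-- **OC MODULE RB.**  The rank bound.
PROOF.  `r k = |Orb k|`.  For `k ∈ B1`: `∑_{t j ≠ 1} |s k j|^2 = p^2 - p - ∑_c s k (pi c k)` (`s_uni`, `part_a`).  `k = o`: `∑_c s o o = (p-1) x`: it is `(p-1) g`.  `k ∈ Ks`: TS2 (1) for `j = k`: `g ∑_{i ∈ Orb k} s k i + r k (y k)^2 = p g`, and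
`r k * ∑_c s k (pi c k) = (p-1) ∑_{i ∈ Orb k} s k i` (ORB `sum`): it is `(p-1) (p (1 - 1/r k) + (y k)^2 / g)`.  `∑_{Ks} y^2 = p + (p-1) x - x^2 = g (p + 1 - g)` (MZZ).  So with `R = ∑_{Ks} (1 - 1/r k)`:
`∑_{k ∈ B1} ∑_{t b ≠ 1} |s b k|^2 = (p-1) (g + p R + p + 1 - g) = (p-1) (p R + p + 1)`.
On the other hand only `b` with `y b ≠ 0` contribute (`Blk.sup`), and for them `∑_{k ∈ B1} |s b k|^2 ≤ 2 p - (p-1) (y b)^2 / g` (IB).  `∑_{t b ≠ 1} (y b)^2 = p^2 - p - (p-1) x = (p-1) g`, and the number of `b` with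
`y b ≠ 0`, `t b ≠ 1` is `≤ (p-1) g`.  So `(p-1)(p R + p + 1) ≤ 2 p (p-1) g - (p-1)^2`, i.e. `R ≤ 2 g - 2`. -/
def StRB : Prop := StIB → StTS2 → StORB → StE3 → StE2 → StE4 → ∀ (I : Type) [Fintype I]
  [DecidableEq I] (p : ℕ) [NeZero p] (X : PD I p 1) (Q : ℂ → Prop), Blk X Q →
  ∑ k ∈ Ks X, (1 - 1 / ((Orb X k).card : ℝ)) ≤ 2 * (gX X : ℝ) - 2

/-- `exp (2 π i / p)` -/
noncomputable def zt (p : ℕ) : ℂ := Complex.exp (2 * Real.pi * Complex.I / p)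

/-- the Fourier transform of an integer function on the units -/
noncomputable def Fm (p : ℕ) [NeZero p] (m : (ZMod (p ^ 1))ˣ → ℤ) (c : (ZMod (p ^ 1))ˣ) : ℂ :=
  ∑ x, (m x : ℂ) * zt p ^ ((c * x : (ZMod (p ^ 1))ˣ) : ZMod (p ^ 1)).val

/-- **OC MODULE PRV.**  Parseval (pure).
PROOF.  `zt p` is a primitive `p`-th root of unity (`Complex.isPrimitiveRoot_exp`), `∑_{a : ZMod p} zt^(a y).val = p [y = 0]`.  `∑_{c unit} zt ^ (c x).val = -1` for a unit `x`: second claim.  First: `∑_c |F c|^2 = ∑_{x, y} m x m y ∑_c zt^(c (x - y))`, the inner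
sum over units `c` is `p - 1` if `x = y`, else `-1`: `p ∑ m x ^ 2 - (∑ m x)^2`. -/
def StPRV : Prop := ∀ (p : ℕ) [NeZero p], p.Prime → ∀ m : (ZMod (p ^ 1))ˣ → ℤ,
  ∑ c, ‖Fm p m c‖ ^ 2 = (p : ℝ) * ∑ x, (m x : ℝ) ^ 2 - (∑ x, (m x : ℝ)) ^ 2 ∧
  ∑ c, Fm p m c = -∑ x, (m x : ℂ)

/-- **OC MODULE MXX.**
PROOF.  `ζ = zt p`.  Every `t v` is `ζ ^ (x v).val` for a unique `x v : ZMod (p^1)` (`t_pow`, primitive root).  `nform` (`t k = t l = 1`): `s k l = ∑ v, N k (st l) v * (t v * y v) = ∑_{x : ZMod (p^1)} M x * ζ ^ x.val`, `M x = ∑_{x v = x} N k (st l) v * y v`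
an integer.  As `∑_x ζ ^ x.val = 0`, `s k l = ∑_{x unit} m x * ζ ^ x.val`, `m x = M x - M 0` (`1 ≠ 0`; `x ≠ 0` iff `x` is a unit, `p` prime).  For a unit `c` let `σ` be the automorphism of `GA.exs`: `s k (pi c l) = σ (s k l) = ∑ m x * ζ ^ (c x).val` (`GA.gal2`).
Invariance: if `pi c l = l` then `s k (pi c l) = s k l`; if `pi c k = k` then `s k (pi c l) = s (pi c k) l = s k l`.  So `∑_x m x ζ^(c x) = ∑_x m x ζ^x`, i.e. `∑_x (m (c⁻¹ x) - m x) ζ ^ x.val = 0` over the units; the `ζ ^ j`, `1 ≤ j ≤ p - 1`, are linearly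
independent over `ℚ` (divide by `ζ`: a rational polynomial of degree `≤ p - 2` vanishing at `ζ` is `0`, `Polynomial.cyclotomic_eq_minpoly_rat`, degree `φ(p) = p - 1`), so `m (c⁻¹ x) = m x` for all `x`. -/
def StMXX : Prop := ∀ (I : Type) [Fintype I] [DecidableEq I] (p : ℕ) [NeZero p] (X : PD I p 1),
  GA X → (∀ i k, X.s i k * (X.t i * X.t k) =
    ∑ l, (X.N i (X.st k) l : ℂ) * (X.t l * X.y l)) →
  ∀ k l, X.t k = 1 → X.t l = 1 → ∃ m : (ZMod (p ^ 1))ˣ → ℤ,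
    (∀ c, X.s k (X.pi c l) = Fm p m c) ∧
    ∀ c, (X.pi c k = k ∨ X.pi c l = l) → ∀ x, m (c * x) = m x

/-- **OC MODULE CMM.**  A combinatorial lemma (pure).
PROOF.  `C = A ⊔ B` has index `r = gcd (index A, index B)`: `C.index ∣ A.index`, `∣ B.index` gives `C.index ∣ r`; in the cyclic group `G` there is a subgroup `C'` of index `r` (`r ∣ |G|`), and a subgroup of a cyclic group is determined by its order,
`A` is contained in every subgroup whose index divides `A.index`; so `A, B ≤ C'`, `C ≤ C'`, `r ∣ C.index`.  (`IsCyclic` lemmas; or take a generator `γ`: `A = ⟨γ ^ A.index⟩`, `B = ⟨γ ^ B.index⟩`, Bezout.)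
`m` is constant on the cosets of `C` (each has `|G| / r` elements): values `f i`, `i` in a set of `r` elements; `F = ∑ f i`, `Q2 = ∑ (f i)^2`.  `r Q2 - F^2 = ∑_{i < j} (f i - f j)^2` (twice it is `∑_{i, j} (f i - f j)^2`).  If it is not `0` then `f i0 ≠ f j0` for some
`i0, j0` (so `r ≥ 2`), and for every `i` other than these `(f i - f i0)^2 + (f i - f j0)^2 ≥ 1`, so the sum is at least `1 + (r - 2)`. -/
def StCMM : Prop := ∀ (G : Type) [CommGroup G] [Fintype G] [IsCyclic G] (A B : Subgroup G)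
  (m : G → ℤ), (∀ c ∈ A, ∀ x, m (c * x) = m x) → (∀ c ∈ B, ∀ x, m (c * x) = m x) →
  ∃ F Q2 : ℤ, (Nat.gcd A.index B.index : ℤ) * ∑ x, m x = (Fintype.card G : ℤ) * F ∧
    (Nat.gcd A.index B.index : ℤ) * ∑ x, m x ^ 2 = (Fintype.card G : ℤ) * Q2 ∧
    ((Nat.gcd A.index B.index : ℤ) * Q2 - F ^ 2 = 0 ∨
      2 ≤ (Nat.gcd A.index B.index : ℤ) ∧ (Nat.gcd A.index B.index : ℤ) - 1 ≤
        (Nat.gcd A.index B.index : ℤ) * Q2 - F ^ 2)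

/-- **OC MODULE GPZ.**
PROOF.  `r = |Orb a|`.  `u = (p-1) e_a - ∑_c e_{pi c a}`: `u i = (p-1) [i = a] - #{c | pi c a = i}`; supported on `t = 1`; `∑_c u (pi c k) = 0` (`pi` is an action: `#{c | pi c k = a} = #{c | pi c a = k}`, ...).  `#{c | pi c a = i} = (p-1)/r` on `Orb a` (ORB),
so `∑ |u i|^2 = (p-1)^2 (1 - 1/r)`.  E4: `∑_{t l = 1} |(s u) l|^2 = p (p-1)^2 (1 - 1/r)`.  `(s u) l = (p-1) s a l - S l`, `S l = ∑_c s l (pi c a) = ∑_c s a (pi c l)` (`pi_s`, symmetric), `S (pi c l) = S l`.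
`(p-1)` times `∑_{t l = 1} |(s u) l|^2` is `∑_{t l = 1} ∑_c |(p-1) s a (pi c l) - S l|^2 = ∑_{t l = 1} ((p-1)^2 ∑_c |s a (pi c l)|^2 - 2 (p-1) |S l|^2 + (p-1) |S l|^2)` `= (p-1) ∑_{t l = 1} T l`, `T l` the summand below.
The terms with `y l = 0` are `0` (`Blk.sup`, `pi_y`), and for `l = o`: `s a o = y a`, `T o = (p-1)^2 (y a)^2 - ((p-1) y a)^2 = 0`. -/
def StGPZ : Prop := StE4 → StE2 → StORB → ∀ (I : Type) [Fintype I] [DecidableEq I] (p : ℕ)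
  [NeZero p] (X : PD I p 1) (Q : ℂ → Prop), Blk X Q → ∀ a ∈ Ks X,
  ∑ l ∈ Ks X, (((p : ℝ) - 1) * ∑ c, ‖X.s a (X.pi c l)‖ ^ 2 - ‖∑ c, X.s a (X.pi c l)‖ ^ 2) =
    (p : ℝ) * ((p : ℝ) - 1) ^ 2 * (1 - 1 / ((Orb X a).card : ℝ))

/-- **OC MODULE GPP.**  The partner orbit.
PROOF.  `g = |Orb a| ≥ 2` (MZZ).  `T l` = summand of GPZ (constant on `Orb l`).  `G = (ZMod (p^1))ˣ` is cyclic of order `p - 1`; `St k = {c | pi c k = k}` is a subgroup of index `|Orb k|`.  For `l ∈ Ks`: MXX for `(a, l)`: `m`; PRV: `T l = (p-1)(p ∑ m^2 - (∑ m)^2) - (∑ m)^2`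
`= p ((p-1) ∑ m^2 - (∑ m)^2)`.  CMM for `A = St a`, `B = St l`, `r = gcd (g, |Orb l|)`: with `V = r Q2 - F^2`: `r^2 T l = p (p-1)^2 V`.  GPZ: `∑_{l ∈ Ks} V_l / r_l^2 = 1 - 1/g` (*).
As `1 - 1/g > 0` some `l0` has `V ≠ 0`, so `r ≥ 2`, `V ≥ r - 1`.  All `l ∈ Orb l0` have the same `T`, `r`, so the same `V`; their contribution to (*) is `|O| V / r^2 ≥ (r - 1)/r ≥ 1/2` (`r ∣ |O|`, `O = Orb l0`).  Two different orbits with `V ≠ 0` would give `≥ 1`,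
so `|O| V / r^2 = (g-1)/g`.  Write `|O| = r q`: `g q V = (g-1) r`, so `g ∣ r` (`gcd (g, g-1) = 1`), `r = g`, `q V = g - 1`, `V ≥ g - 1`: `q = 1`, `V = g - 1`, `|O| = g`.
`O ≠ Orb a`: suppose `l0 ∈ Orb a`; then `V = g - 1` also for `l = a` (`T a = T l0`, `r = g`).  TS2 (1) for `j = k = a`: `g ∑_{i ∈ Orb a} s a i + g (y a)^2 = p g`, so `∑_{i ∈ Orb a} s a i = p - 1`, and `g ∑_c s a (pi c a) = (p-1)(p-1)` (ORB `sum`), so by PRV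
`g ∑ m = -(p-1)^2`; CMM: `g ∑ m = (p-1) F`, so `F = -(p-1) = - N g`, and `V = g Q2 - N^2 g^2` is divisible by `g`; but `V = g - 1`, `g ≥ 2`: contradiction.  So `w = l0` is in `Kp X a` (`O ∩ Orb a = ∅`). -/
def StGPP : Prop := StGPZ → StMXX → StPRV → StCMM → StTS2 → StORB → StE4 → StE2 →
  ∀ (I : Type) [Fintype I] [DecidableEq I] (p : ℕ) [NeZero p] (X : PD I p 1) (Q : ℂ → Prop)
  (N : ℕ) (a : I), Gam X Q N a → GA X → (∀ i k, X.s i k * (X.t i * X.t k) =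
    ∑ l, (X.N i (X.st k) l : ℂ) * (X.t l * X.y l)) →
  ∃ w ∈ Kp X a, ((Orb X w).card : ℤ) = gX X

/-- **OC MODULE KSS.**  All other orbits are single points.
PROOF.  RB: `∑_{k ∈ Ks} (1 - 1/|Orb k|) ≤ 2 g - 2`.  `Orb a` and `Orb w` are disjoint subsets of `Ks` (ORB; `w ∉ Orb a`), all their elements have `|Orb| = g`, each contributes `g (1 - 1/g) = g - 1`.  All terms are `≥ 0`, so the other terms are `0`. -/
def StKSS : Prop := StRB → StIB → StTS2 → StORB → StE3 → StE2 → StE4 → ∀ (I : Type) [Fintype I]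
  [DecidableEq I] (p : ℕ) [NeZero p] (X : PD I p 1) (Q : ℂ → Prop) (N : ℕ) (a : I),
  Gam X Q N a → ∀ w ∈ Kp X a, ((Orb X w).card : ℤ) = gX X →
  ∀ k ∈ Kp X a, k ∉ Orb X w → (Orb X k).card = 1

/-- **OC MODULE N33.**  The case `N = 3`.
PROOF.  `p - 1 = 3 g`, `g ≥ 2`.  GPP, KSS: `w`; let `Sg = {k ∈ Kp X a | k ∉ Orb w}`, every `k ∈ Sg` has `Orb k = {k}`, and `g ∣ y k` (TS2 (2) for some `j` with `t j ≠ 1` (field `ex`): `g * chi j k = - y k`, `chi j k` integral and rational, so an integer, `hRAT'`); so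
`(y k)^2 = g^2 c^2`, `c ≥ 1`.  `Gam.sq`: `g (y w)^2 + ∑_{Sg} y^2 = g (p - g) = g (2 g + 1)`, so `(y w)^2 + g ∑_{Sg} c^2 = 2 g + 1` and `∑ c^2 ≤ 2`.  `st` maps `Sg` to `Sg` without fixed points (`nsd`, `st_o`, `y_st`, `t_st`; `GA.pi_st`: `Orb (st k) = st (Orb k)`; `st` maps
`Orb a` and `Orb w` to orbits of size `g ≥ 2`: if `st k ∈ Orb a` then `|Orb (st k)| = g`, but `|Orb (st k)| = |Orb k| = 1`), so `|Sg|` is even: `0` or `2`.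
`Sg = ∅`: `(y w)^2 = 2 g + 1` and `Gam.dm`: `g (y w)(d w) = g`, so `y w = ± 1`: contradiction.  So `Sg = {v, st v}`, `c = 1`, `(y v)^2 = g^2`, `(y w)^2 = 1`.  `Gam.dm`: `g (y w)(d w) + 2 (y v)(d v) = g`; `y v = ± g`: `(± 1) d w ± 2 d v = 1`, so `d v`, `d w` are coprime.
`k ∈ Ks` is in `Orb a`, or in `Orb w`, or in `Sg`. -/
def StN33 : Prop := StGPP → StKSS → StGPZ → StMXX → StPRV → StCMM → StRB → StIB → StTS2 →
  StORB → StE3 → StE4 → StE2 →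
  ∀ (I : Type) [Fintype I] [DecidableEq I] (p : ℕ) [NeZero p] (X : PD I p 1) (Q : ℂ → Prop)
  (a : I), Gam X Q 3 a → GA X → (∀ i k, X.s i k * (X.t i * X.t k) =
    ∑ l, (X.N i (X.st k) l : ℂ) * (X.t l * X.y l)) →
  ∃ v w : I, v ∈ Ks X ∧ w ∈ Ks X ∧ X.st v ∈ Ks X ∧ X.st v ≠ v ∧ Orb X v = {v} ∧
    Orb X (X.st v) = {X.st v} ∧ X.y v ^ 2 = gX X ^ 2 ∧ X.y w ^ 2 = 1 ∧
    ((Orb X w).card : ℤ) = gX X ∧ Nat.Coprime (X.d v) (X.d w) ∧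
    ∀ k ∈ Ks X, k ∈ Orb X a ∨ k ∈ Orb X w ∨ k = v ∨ k = X.st v

end Pool.Agent.Helper89.OC
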