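import Pool.Agent.Helper89.OC.St2

/-!
# Project OC (MP_2b6189_al), part 3: Tannakian subcategories, the class inequality

See the headers of `St1`, `St2`.  `X : PD I p 1`, `x = y o`, `g = p - x = gX X ≥ 2` (`Helper39.OS.hMZZ`).
-/

set_option autoImplicit false

namespace Pool.Agent.Helper89.OC

open Matrix ComplexConjugate Pool.Agent.Helper94.YF Pool.Agent.Helper94.YG Pool.Agent.Helper89.OS

/-- **OC MODULE KRO.**  (pure)
PROOF.  The set `S = {σ α}` is finite: all its elements are roots of a monic integer polynomial `f` with `f(α) = 0`.  `P = ∏_{β ∈ S} β` is integral and fixed by all automorphisms (they permute `S`), so `P` is an integer (`Helper94.YF.hRAT'`); `S` is not empty and all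
`|β| < 1`, so `|P| < 1`, `P = 0`, some `σ α = 0`, `α = 0`. -/
def StKRO : Prop := ∀ α : ℂ, IsIntegral ℤ α → (∀ σ : ℂ ≃+* ℂ, ‖σ α‖ < 1) → α = 0

/-- **OC MODULE CEN.**  Coprime objects centralise each other.
PROOF.  `Orb X v = {v}`: TS2 (1): with `E l = g [l = v] + y v [l = o]`: `∑ l, s j l * E l = p * E j`.  LKN: `zz`.  For every `i`: `∑ k, Sf i k * E k = ∑ j, zz i j * ∑ k, s j k * E k = p * ∑ j, zz i j * E j`, i.e. (GLA `Sf_o`, `zz i o = z i`, `Lk.o`, `Lk.d`)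
`g * Sf i v + y v * d i = p * (g * zz i v + y v * z i)`.  `y v = ε g`, `ε = ± 1`: `Sf i v = - ε d i + p (zz i v + ε z i)`.  For `i = o`: `d v = Sf o v = - ε + p (z v + ε z o)` (`zz o v = z v`).  So `Sf w v - d w * d v = p * β`,
`β = zz w v + ε z w - d w (z v + ε z o)` integral.  `α = Sf v w / (d v d w)`: `Sf v w / d v = Cchi v w` and `Sf v w / d w = Cchi w v` are integral (GLA), and `u d v + u' d w = 1` in integers, so `α = u * Sf v w / d w + u' * Sf v w / d v` is integral.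
`p` is prime to `d v d w` (`Blk.d_nd`), `(α - 1) * (d v d w) = p β`, so with `r p + r' d v d w = 1`: `(α - 1) / p = r (α - 1) + r' β` is integral.  For every automorphism `σ`: `|σ α| = |σ (Cchi v w)| / d w ≤ 1` (GLA `bound`), so `|σ ((α - 1)/p)| ≤ 2/p < 1`
(`p ≥ 3`).  KRO: `α = 1`. -/
def StCEN : Prop := StKRO → StTS2 → StORB → StGLA → StLKN →
  ∀ (I : Type) [Fintype I] [DecidableEq I] (Z : CentreData I) (p : ℕ) [NeZero p] (b : ZMod Z.L)
  (X : PD I p 1) (Q : ℂ → Prop), Lk Z b X → Blk X Q → ∀ v w : I, v ∈ Ks X → Orb X v = {v} →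
  X.y v ^ 2 = gX X ^ 2 → X.y w ≠ 0 → Nat.Coprime (X.d v) (X.d w) →
  Sf Z v w = (Z.d v : ℂ) * Z.d w

/-- **OC MODULE FIN.**  The end of the case `N = 3`.
PROOF.  `D1 j : Cchi Z v j = d j`.  `D2 j : ∀ i, D1 i → Cchi Z i j = d j`.  Both contain `o` and are closed under `st` and constituents of products (GLA: `chi_o`, `chi_st`, `clos`; `d (st j) = d j`).  `v ∈ D2`: for `i ∈ D1`: `Sf v i = d v * d i` (`Sf_chi`), `Sf i v = Sf v i`
so `Cchi i v = d v`.  `st v ∈ D2`.  Every `w' ∈ Orb w` is in `D1` (CEN: `d w' = d w`, `y w' = y w ≠ 0`).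
Case 1: there is `x ≠ o` in `D1 ∩ D2`.  `D j := D1 j ∧ D2 j` is a `TanSet`: for `x, y ∈ D`: `Cchi x y = d y` (`x ∈ D1`, `y ∈ D2`), so `Sf x y = d x * d y`; `twist`: `Sf x x = (d x)^2`, GLC `self`.
Case 2: `D1 ∩ D2 = {o}`.  Let `v', v'' ∈ {v, st v}`, `w', w'' ∈ Orb w`.  GLB `assoc`: `∑ l, N v' w' l * N v'' w'' l = ∑ l, N v' (st v'') l * N w'' (st w') l`; `N v' (st v'') l ≠ 0` gives `l ∈ D2`, `N w'' (st w') l ≠ 0` gives `l ∈ D1`, so only `l = o` counts: the sum is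
`[v' = v''] * [w'' = w']` (GLB `N_o`).  So for every pair `(v', w')` there is exactly one `l = x(v', w')` with `N v' w' l ≠ 0`, it has `N v' w' l = 1`, and different pairs have different `x`.  GLB `dim`: `d x = d v' * d w' = d v * d w`.
LKN `nform` for `i = v'`, `k = st w'` (`t v' = t (st w') = 1`, `st (st w') = w'`, `X.N = Z.N`): `s v' (st w') = t x * y x`.  TS2 (1) for `v'` (orbit `{v'}`; `y v' = y v`) at `j = st w'` (`≠ v'`, as `(y v')^2 = g^2 ≥ 4`, `(y (st w'))^2 = (y w)^2 = 1`; `≠ o`): `g * s (st w') v' + y v' * y w = 0`, so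
`s (st w') v' = ± 1`.  So `t x * y x = ± 1`; `|t x| = 1`, `y x` an integer: `y x = ± 1`, `t x = ± 1`, and `(t x)^p = 1`, `p` odd: `t x = 1`.  If `x = o` then `d v = 1` and `Goal2` holds (`v ≠ o`, `X.th_of`, `Lk`).  Otherwise `x ∈ Ks`, `(y x)^2 = 1`, so `x ≠ v, st v`; if `x ∈ Orb w` then
`d x = d w`, `d v = 1`, `Goal2`.  So all `x(v', w') ∈ Orb a`: `2 g ≤ g`, contradiction. -/
def StFIN : Prop := StCEN → StKRO → StTS2 → StORB → StGLA → StGLB → StGLC → StLKN →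
  ∀ (I : Type) [Fintype I] [DecidableEq I] (Z : CentreData I) (p : ℕ) [NeZero p] (b : ZMod Z.L)
  (X : PD I p 1) (Q : ℂ → Prop) (a v w : I), Lk Z b X → Blk X Q → a ∈ Ks X →
  ((Orb X a).card : ℤ) = gX X → v ∈ Ks X → w ∈ Ks X → X.st v ∈ Ks X → X.st v ≠ v →
  Orb X v = {v} → Orb X (X.st v) = {X.st v} → X.y v ^ 2 = gX X ^ 2 → X.y w ^ 2 = 1 →
  ((Orb X w).card : ℤ) = gX X → Nat.Coprime (X.d v) (X.d w) →
  (∀ k ∈ Ks X, k ∈ Orb X a ∨ k ∈ Orb X w ∨ k = v ∨ k = X.st v) → Goal3 Z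

/-- **OC MODULE DIC.**  The three cases.
PROOF.  `Pool.Agent.Helper94.OT.cdx2` (file Helper94/OT/Cdx.lean) and the proof of `cdx3` (file Helper94/OT/End.lean; hypotheses `Helper79.OS.hPAR, Helper39.OS.hMZZ, Helper79.OS.hDRE, Helper45.OS.hTSU, Helper82.OS.hMUK, Helper47.OS.hSTL,
Helper8.OS.hHEC, Helper91.OS.hAMG, Helper94.YF.hRAT'`) give `C : CD3 I p` with `C.d = X.d`, `C.K = Ks X`, `C.g = gX X`, and also `C.y = X.y`, `C.O = Orb X` (exported by `cdx2`; copy the proof of `cdx3`).  Now as in the proof of `CD3.dich` (file Helper94/OT/Fer.lean): `C.exM`: `M`, `C.ineq`;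
`C.dich`: `N` odd, `p - 1 = N g`.  If `N = 1` then `g = p - 1` and `C.caseA` gives `k ∈ K` with `d k = 1`.  Let `N ≥ 3`.  `M = 0` is impossible (first case of `dich`).
`M = 1`: `C.one_orbit` for `S = C.A`: `a ∈ A`, `A = O a`, `(y a)^2 = 1`, `|O a| = g`.  `Kp X a = K \ A`: `sq` is `ineq` (3): `g (p + 1 - g - 1)`; `dm`: for `k ∈ A`: `D y k = d k` (`sy`), so `∑_A y d = D ∑_A y^2 = D g`, and `C.dim`: `∑_K y d = g (D + 1)`.  This is `Gam X Q N a`.
`M ≥ 2`: as in `dich`: `sign D = 1`, `g D = p - 1`, and `D ((M - 2) p + g) ≤ p - 1 = g D`, so `M = 2`.  Then `i1` of `ineq` is an equality: `-(D (p - 1 - g)) = (p - 1)(1 - D)` (both are `-(D g (D - 1))`; `p - 1 = g D`).  So the sum over `K \ A` of the nonnegative terms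
`(p - 1) (y k d k) + D (y k)^2` (`C.bnd`) is `0` and every `k ∈ K \ A` has `D y k = - (p - 1) d k = - g D d k`, `y k = - g d k`.  `K \ A` is not empty: `∑_{K \ A} y^2 = g (p - 1 - g) > 0` as `N ≥ 3`. -/
def StDIC : Prop := ∀ (I : Type) [Fintype I] [DecidableEq I] (p : ℕ) [NeZero p] (X : PD I p 1)
  (Q : ℂ → Prop), Blk X Q →
  (∃ k ∈ Ks X, X.d k = 1) ∨ (∃ k ∈ Ks X, X.y k = -(gX X * (X.d k : ℤ))) ∨
    ∃ (N : ℕ) (a : I), Gam X Q N a

/-- **OC MODULE TAN.**  The case `y k = - g d k`.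
PROOF.  `D i : ∀ j, X.t j ≠ 1 → Cchi Z j i = d i`.  Contains `o`, closed under `st` (GLA `chi_st`, `d (st i) = d i`) and products (`clos`).
`k ∈ D`: TS2 (2): for `t j ≠ 1`: `g ∑_{i ∈ Orb k} chi j i = - |Orb k| y k = g |Orb k| d k`, so `∑_{i ∈ Orb k} chi j i = |Orb k| d k`; `|chi j i| ≤ d i = d k` (GLA `bound` for `σ = 1`, ORB), so all `chi j i = d k`.
(1) if `i ∈ D`, `i ≠ o`, then `t i = 1` and `y i = - g d i`: LKD: `∑_{t j ≠ 1} (d j)^2 * chi j i = - m^2 y i ((p - 1) or -1)`, and the left side is `d i * ∑_{t j ≠ 1} (d j)^2`.  `∑_{t j ≠ 1} (d j)^2 = m^2 (p-1) g`: for a unit `w` `∑ j, t j ^ w.val * (d j)^2 = p m^2 x`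
(`d j = ∑ i, s j i * z i` (`sz`), `weil`, `z_t`, `pi_z`, `sz`, `∑ z i ^ 2`...; or simpler: LKD-style: take `i = o` in the computation of LKD; or: `n^2 * rho (Lo (-wb)) o o = n^2 x / p`) and `∑ j, (d j)^2 = n^2 = p^2 m^2`, so `p ∑_{t j = 1} (d j)^2 = p^2 m^2 + (p-1) p m^2 x`, `∑_{t j ≠ 1} = p^2 m^2 - p m^2 - (p-1) m^2 x`
`= (p-1) m^2 (p - x)`.  So `d i (p-1) g = - y i * ((p-1) or -1)`.  If `t i ≠ 1`: `y i = (p-1) g d i`, but `(y i)^2 ≤ ∑_{t = t i} y^2 = g` (MZZ), `(p-1)^2 g ≤ 1`: false.  So `t i = 1`, `y i = - g d i`.  Hence `th i = 1` (`th_of`): `twist`.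
(2) `symm`: let `i, k ∈ D`.  Fix `l` with `t l ≠ 1` (field `ex`).  `Cchi l i = d i` so `Sf i l = d i d l` (symmetric).  `N i l v ≠ 0` implies `th v = th i * th l = th l` (GLC `bal`), so `t v = tw b v = th v ^ b.val = t l ≠ 1`.  So for every `i' ∈ D`: `Cchi v i' = d i'`, i.e. `Cchi i' v = d v`
(`Sf_symm`, `Sf_chi`, `d > 0`), and `Cchi i' l = d l`.  The set `J = {v | ∀ i' ∈ D, Cchi i' v = d v}` is closed under `st` and products and contains `l` and all `v` in `i (x) l`; there is such a `v` (dimension) and `i` is a constituent of `v (x) st l` (`N v (st l) i ≠ 0`: GLB `assoc`/`N_o`, or Verlinde: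
`N i l v = N v (st l) i`), so `i ∈ J`: `Cchi k i = d i`, `Sf k i = d k d i`. -/
def StTAN : Prop := StLKD → StGLA → StGLB → StGLC → StTS2 → StORB →
  ∀ (I : Type) [Fintype I] [DecidableEq I] (Z : CentreData I) (p : ℕ) [NeZero p] (b : ZMod Z.L)
  (X : PD I p 1) (Q : ℂ → Prop), Lk Z b X → Blk X Q → ∀ k ∈ Ks X,
  X.y k = -(gX X * (X.d k : ℤ)) → ∃ D : I → Prop, TanSet Z D

/-- **OC MODULE CIX.**  One step of the class inequality.
PROOF.  `σ = rho (s2 b) = s / p` (symmetric), `R = rho (s2 c)`, unitary.  2x2 matrices (`c * c = c`, `b * b = b`, `c * b = 0`): `s2 (c + b) = s2 c * s2 b = s2 b * s2 c`, `U b * s2 c = s2 c * U b`; so `R σ = σ R`, and `R i k ≠ 0` implies `t i = t k` (`rho (U b) = diagonal t`).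
`h k = [k = o] - [t k = 1] y k / p` (real).  `(R σ) o o = ∑ k, R o k * y k / p` and `R o k ≠ 0` only if `t k = 1`, so the number `A = R o o - (R σ) o o = ∑ k, R o k * h k`.
`Helper8.OS.hHEC` for `f = e_o`: for `t j = 1`: `∑_{t k = 1} s j k * y k = p [j = o] + (p-1) y j`; so for `t j = 1`: `∑_k σ j k * h k = y j / p - [j = o]/p - (p-1) y j / p^2 = - h j / p`.  Let `v = e_o - (p/(p+1)) h`: for `t j = 1`: `∑_k σ j k * v k = y j / p + h j/(p+1) = v j` (both are `([j = o] + y j)/(p+1)`).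
`G i = ∑ k, R i k * h k` vanishes for `t i ≠ 1`.  For `t i = 1`: `G i = - p ∑_{k : t k = 1} R i k * ∑_l σ k l * h l = - p ∑_l (R σ) i l * h l = - p ∑_l (σ R) i l * h l = - p ∑_k σ i k * G k` (the sum over `t k = 1` is the full sum as `R i k = 0` otherwise).
So `β := ∑ i, v i * G i = - p ∑_k G k * ∑_{t i = 1} v i * σ i k = - p ∑_k G k * v k = - p β` (`v` is supported on `t = 1`, `G k = 0` for `t k ≠ 1`, `σ` symmetric), so `β = 0`.  `A = G o = β + (p/(p+1)) ∑ i, h i * G i`, and `|∑ h i * G i| ≤ |h| |G| = |h|^2` (`R` unitary).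
`|h|^2 = 1 - 2 x/p + (∑_{t=1} y^2)/p^2 = (p+1) g / p^2` (`Helper39.OS.hMZZ`: `∑_{t = 1} y^2 = p + (p-1) x`).  So `|A| ≤ g/p`. -/
def StCIX : Prop := ∀ (I : Type) [Fintype I] [DecidableEq I] (Z : CentreData I) (p : ℕ)
  (b : ZMod Z.L) (X : PD I p 1), Lk Z b X → ∀ c : ZMod Z.L, c * c = c → c * b = 0 →
  ‖Z.rho (s2 c) Z.o Z.o - Z.rho (s2 (c + b)) Z.o Z.o‖ ≤ (gX X : ℝ) / p

/-- **OC MODULE CIS.**  The class inequality: summation.
PROOF.  `P = n.primeFactors`.  `Idp L p 1 (b p)`: `b p * b p = b p`, `p * b p = 0`, `L = p * L'`, `p ∤ L'`, `L' * (1 - b p) = 0`.  `b p * b q = 0` for `p ≠ q` (it is killed by the coprime numbers `p`, `q`).  Let `f = 1 - ∑_{p ∈ P} b p`; `f * b q = 0`, so `(L / q) * f = (L / q) * (1 - b q) * f = 0` for all `q ∈ P`;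
no prime divides `L` and all `L / q`, `q ∈ P` (primes of `L` divide `n`: `Helper73.OS.hLDV`; `q ∤ L / q`), and `L * f = 0`, so the gcd of `L` and the `L / q` is `1` and `f = 0` (the set of integers `k` with `k f = 0` is an ideal, so it is generated by a divisor of all of them).  So `∑_{p ∈ P} b p = 1`.
By induction over `T ⊆ P`: `|1 - rho (s2 (∑_{p ∈ T} b p)) o o| ≤ ∑_{p ∈ T} e p`: `s2 0 = 1`; in the step `c = ∑_{p ∈ T} b p` is idempotent and `c * b q = 0`.  For `T = P`: `s2 1 = Sm`, `rho Sm o o = 1/n`. -/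
def StCIS : Prop := ∀ (I : Type) [Fintype I] [DecidableEq I] (Z : CentreData I)
  (b : ℕ → ZMod Z.L) (e : ℕ → ℝ),
  (∀ p ∈ Z.n.primeFactors, Idp Z.L p 1 (b p)) →
  (∀ p ∈ Z.n.primeFactors, ∀ c : ZMod Z.L, c * c = c → c * b p = 0 →
    ‖Z.rho (s2 c) Z.o Z.o - Z.rho (s2 (c + b p)) Z.o Z.o‖ ≤ e p) →
  1 - 1 / (Z.n : ℝ) ≤ ∑ p ∈ Z.n.primeFactors, e p

end Pool.Agent.Helper89.OC
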